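import Pool.Agent.W857.CC.Stm

/-!
# Project CC, part UP: upper bound for admissible constants
-/

set_option autoImplicit false

namespace Pool.Agent.W806.CC.UP

open Finset Pool.Agent.W857.CC
open scoped Classical

theorem sum_ite_fin (n s : ℕ) (hs : s ≤ n) (a b : ℝ) :
    ∑ i : Fin n, (if i.val < s then a else b) = s * a + ((n : ℝ) - s) * b := by
  obtain ⟨t, rfl⟩ := Nat.exists_eq_add_of_le hs
  rw [Fin.sum_univ_eq_sum_range (fun i => if i < s then a else b) (s + t), Finset.sum_range_add]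
  have h1 : ∑ x ∈ range s, (if x < s then a else b) = s * a := by
    rw [Finset.sum_congr rfl (g := fun _ => a)
      (fun x hx => if_pos (Finset.mem_range.1 hx))]
    simp
  have h2 : ∑ x ∈ range t, (if s + x < s then a else b) = t * b := by
    rw [Finset.sum_congr rfl (g := fun _ => b) (fun x _ => if_neg (by omega))]
    simp
  rw [h1, h2]
  push_cast
  ring

theorem up1 : S_RAY → S_UP1 := by
  intro hray n s hs1 hsn hcond
  have hn : 1 ≤ n := hs1.trans hsn
  haveI : Nonempty (Fin n) := ⟨⟨0, hn⟩⟩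
  have hsR : (1 : ℝ) ≤ s := by exact_mod_cast hs1
  have hsnR : (s : ℝ) ≤ n := by exact_mod_cast hsn
  have hnR : (1 : ℝ) ≤ n := by exact_mod_cast hn
  set α : ℝ := n / (2 * s) with hα
  set y : Fin n → ℝ := fun i => if i.val < s then α else 1 with hy
  have hysum : ∑ i, y i = s * α + ((n : ℝ) - s) := by
    rw [hy, sum_ite_fin n s hsn, mul_one]
  have hns : ∀ i : Fin n, nsum (J n s) y i =
      if i.val < s then s * α + ((n : ℝ) - s) - α else s * α := by
    intro i
    unfold nsum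
    by_cases hi : i.val < s
    · rw [if_pos hi]
      have h1 : ∀ w : Fin n, (if (J n s).Adj i w then y w else 0) =
          y w - (if w = i then y w else 0) := by
        intro w
        by_cases hw : w = i
        · subst hw
          rw [if_neg (fun h => h.1 rfl), if_pos rfl, sub_self]
        · rw [if_pos ⟨fun h => hw h.symm, Or.inl hi⟩, if_neg hw, sub_zero]
      rw [Finset.sum_congr rfl (fun w _ => h1 w), Finset.sum_sub_distrib, hysum]
      simp only [Finset.sum_ite_eq', Finset.mem_univ, if_true]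
      rw [hy]
      simp only [if_pos hi]
    · rw [if_neg hi]
      have h1 : ∀ w : Fin n, (if (J n s).Adj i w then y w else 0) =
          if w.val < s then α else 0 := by
        intro w
        by_cases hw : w.val < s
        · rw [if_pos hw, if_pos ⟨fun h => hi (by rw [h]; exact hw), Or.inr hw⟩, hy]
          simp only [if_pos hw]
        · rw [if_neg hw, if_neg]
          rintro ⟨_, h | h⟩
          · exact hi h
          · exact hw h
      rw [Finset.sum_congr rfl (fun w _ => h1 w), sum_ite_fin n s hsn]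
      ring
  have hL : ∑ v, y v * nsum (J n s) y v =
      s * (α * (s * α + ((n : ℝ) - s) - α)) + ((n : ℝ) - s) * (s * α) := by
    have h1 : ∀ v : Fin n, y v * nsum (J n s) y v =
        if v.val < s then α * (s * α + ((n : ℝ) - s) - α) else s * α := by
      intro v
      rw [hns, hy]
      by_cases hv : v.val < s
      · simp only [if_pos hv]
      · simp only [if_neg hv, one_mul]
    rw [Finset.sum_congr rfl (fun v _ => h1 v), sum_ite_fin n s hsn]
  have hR : ∑ v, y v ^ 2 = s * α ^ 2 + ((n : ℝ) - s) := by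
    have h1 : ∀ v : Fin n, y v ^ 2 = if v.val < s then α ^ 2 else 1 := by
      intro v
      rw [hy]
      by_cases hv : v.val < s
      · simp only [if_pos hv]
      · simp only [if_neg hv, one_pow]
    rw [Finset.sum_congr rfl (fun v _ => h1 v), sum_ite_fin n s hsn, mul_one]
  have h := hray (Fin n) (J n s) y
  rw [hL, hR] at h
  have hαp : 0 < α := by rw [hα]; positivity
  have hRp : 0 < s * α ^ 2 + ((n : ℝ) - s) := by
    have : 0 < s * α ^ 2 := by positivity
    linarith
  have hcR : (n : ℝ) ^ 2 + 4 * (s : ℝ) ^ 2 + 2 * n < 6 * s * n := by exact_mod_cast hcond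
  have hkey : (n : ℝ) / 2 * (s * α ^ 2 + ((n : ℝ) - s)) <
      s * (α * (s * α + ((n : ℝ) - s) - α)) + ((n : ℝ) - s) * (s * α) := by
    have h1 : s * (α * (s * α + ((n : ℝ) - s) - α)) + ((n : ℝ) - s) * (s * α) -
        (n : ℝ) / 2 * (s * α ^ 2 + ((n : ℝ) - s)) =
        n / (8 * s) * (6 * s * n - 4 * s ^ 2 - n ^ 2 - 2 * n) := by
      rw [hα]
      have : (s : ℝ) ≠ 0 := by positivity
      field_simp
      ring
    have h2 : 0 < n / (8 * s) * (6 * s * n - 4 * s ^ 2 - n ^ 2 - 2 * n : ℝ) := by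
      apply mul_pos (by positivity)
      linarith
    linarith
  by_contra hcon
  push Not at hcon
  have h3 : lam (J n s) * (s * α ^ 2 + ((n : ℝ) - s)) ≤
      (n : ℝ) / 2 * (s * α ^ 2 + ((n : ℝ) - s)) := by
    gcongr
  linarith

theorem main : S_UP1 → S_UP2 → S_UP := by
  intro h1 h2 C hC hadm
  have h5 : Real.sqrt 5 ^ 2 = 5 := Real.sq_sqrt (by norm_num)
  have h50 : 0 ≤ Real.sqrt 5 := Real.sqrt_nonneg 5
  have h5a : 2.236 < Real.sqrt 5 := by
    rw [Real.lt_sqrt (by norm_num)]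
    norm_num
  have h5b : Real.sqrt 5 < 2.237 := by
    rw [Real.sqrt_lt' (by norm_num)]
    norm_num
  have hCst : Cst = (3 - Real.sqrt 5) / 2 := rfl
  set ε : ℝ := (C - Cst) / 2 with hε
  have hε0 : 0 < ε := by rw [hε]; linarith
  have hεC : ε < C := by rw [hε]; linarith
  obtain ⟨n₀, hn₀⟩ := hadm.2 ε hε0 hεC
  set τ : ℝ := min (ε / 8) (1 / 100) with hτ
  have hτ0 : 0 < τ := by rw [hτ]; positivity
  have hτ1 : τ ≤ ε / 8 := min_le_left _ _
  have hτ2 : τ ≤ 1 / 100 := min_le_right _ _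
  set a : ℝ := Cst / 2 + τ with ha
  have ha1 : 0.19 < a := by rw [ha, hCst]; linarith
  have ha2 : a < 0.202 := by rw [ha, hCst]; linarith
  obtain ⟨n, hn⟩ := exists_nat_ge (max (n₀ : ℝ) (max (10 : ℝ) (max (2 / τ + 1) (4 / ε))))
  have hnn₀ : n₀ ≤ n := by exact_mod_cast (le_max_left _ _).trans hn
  have hn10 : (10 : ℝ) ≤ n := ((le_max_left _ _).trans (le_max_right _ _)).trans hn
  have hnτ : 2 / τ + 1 ≤ n :=
    ((le_max_left _ _).trans ((le_max_right _ _).trans (le_max_right _ _))).trans hn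
  have hnε : 4 / ε ≤ n :=
    ((le_max_right _ _).trans ((le_max_right _ _).trans (le_max_right _ _))).trans hn
  have hnp : (0 : ℝ) < n := by linarith
  have hnτ' : 2 < τ * n := by
    have : 2 / τ < n := by linarith
    rw [div_lt_iff₀ hτ0] at this
    linarith
  have hnε' : 4 ≤ ε * n := by
    rw [div_le_iff₀ hε0] at hnε
    linarith
  set s : ℕ := ⌈a * n⌉₊ with hs
  have hs1 : a * n ≤ s := Nat.le_ceil _
  have hs2 : (s : ℝ) < a * n + 1 := Nat.ceil_lt_add_one (by positivity)
  have hs3 : 1 ≤ s := by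
    have : (0 : ℝ) < s := lt_of_lt_of_le (by positivity) hs1
    exact_mod_cast this
  have hs4 : s ≤ n := by
    have : (s : ℝ) ≤ n := by nlinarith
    exact_mod_cast this
  have hp : 6 * a - 4 * a ^ 2 - 1 ≥ τ := by
    have e : 6 * a - 4 * a ^ 2 - 1 = τ * (6 - 4 * Cst - 4 * τ) := by
      rw [ha, hCst]
      ring_nf
      rw [h5]
      ring
    rw [e]
    have : 1 ≤ 6 - 4 * Cst - 4 * τ := by rw [hCst]; linarith
    nlinarith
  have hcond : n ^ 2 + 4 * s ^ 2 + 2 * n < 6 * s * n := by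
    have h3 : (n : ℝ) ^ 2 + 4 * (s : ℝ) ^ 2 + 2 * n < 6 * s * n := by
      have h4 : 0 ≤ ((s : ℝ) - a * n) * (6 * n - 4 * (s + a * n)) := by
        apply mul_nonneg (by linarith)
        nlinarith
      have h6 : τ * (n : ℝ) ^ 2 ≤ (6 * a - 4 * a ^ 2 - 1) * (n : ℝ) ^ 2 := by
        apply mul_le_mul_of_nonneg_right hp (by positivity)
      have h7 : 2 * (n : ℝ) < τ * (n : ℝ) ^ 2 := by
        calc 2 * (n : ℝ) < τ * n * n := by
              apply mul_lt_mul_of_pos_right hnτ' hnp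
          _ = _ := by ring
      nlinarith
    exact_mod_cast h3
  have hlam := h1 n s hs3 hs4 hcond
  have hsq : Real.sqrt ((n ^ 2 / 4 : ℕ) : ℝ) ≤ (n : ℝ) / 2 := by
    rw [Real.sqrt_le_left (by positivity)]
    have h3 : ((n ^ 2 / 4 : ℕ) : ℝ) ≤ ((n ^ 2 : ℕ) : ℝ) / 4 := Nat.cast_div_le
    push_cast at h3 ⊢
    calc ((n ^ 2 / 4 : ℕ) : ℝ) ≤ (n : ℝ) ^ 2 / 4 := h3
      _ = ((n : ℝ) / 2) ^ 2 := by ring
  set ℓ : ℕ := ⌊(C - ε) * n⌋₊ with hℓ
  have hCε : C - ε = Cst + ε := by rw [hε]; ring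
  have hCst0 : 0 < Cst := by rw [hCst]; linarith
  have hℓ1 : (ℓ : ℝ) ≤ (C - ε) * n := by
    apply Nat.floor_le
    rw [hCε]
    positivity
  have hℓ2 : (C - ε) * n < ℓ + 1 := Nat.lt_floor_add_one _
  have hℓ3 : 2 * (s : ℝ) < ℓ := by
    rw [hCε] at hℓ2
    have h3 : 2 * (a * n) = Cst * n + 2 * (τ * n) := by rw [ha]; ring
    have h4 : τ * n ≤ ε / 8 * n := by gcongr
    nlinarith
  have hℓ4 : 2 * s < ℓ := by exact_mod_cast hℓ3
  have hcyc := hn₀ n hnn₀ (J n s) (lt_of_le_of_lt hsq hlam) ℓ (by omega) hℓ1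
  have := h2 n s ℓ hcyc
  omega

end Pool.Agent.W806.CC.UP
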