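import Pool.Agent.W806.CC.LayB

/-!
Project CC, part LAY: the lower bound of the energy.
-/

set_option autoImplicit false
set_option linter.unusedSectionVars false

open MeasureTheory
open scoped ENNReal

namespace Pool.Agent.W806.CC

open Pool.Agent.W761.CB Pool.Agent.W761.CC
open Pool.Agent.W372.CB (tc meas_tc tr vol_cube meas_cube)

section isos

variable {X : Type} {B D : Set X} {near : X → X → Prop} {S : Multiset X}

open Classical in
lemma mem_iso {y : X} : y ∈ iso B D near S ↔ y ∈ S ∧ y ∈ D ∧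
    Multiset.card (S.filter fun y' => y' ∈ B ∧ near y y') ≤ 1 := by
  unfold iso
  rw [Multiset.mem_filter]

open Classical in
lemma iso_nodup (hD : D ⊆ B) (hr : ∀ y, near y y) : (iso B D near S).Nodup := by
  rw [Multiset.nodup_iff_count_le_one]
  intro y
  by_cases hy : y ∈ iso B D near S
  · obtain ⟨h1, h2, h3⟩ := mem_iso.1 hy
    have h4 : Multiset.count y (iso B D near S) ≤ Multiset.count y S := by
      unfold iso
      exact Multiset.count_le_of_le y (Multiset.filter_le _ _)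
    have h5 : Multiset.count y (S.filter fun y' => y' ∈ B ∧ near y y') = Multiset.count y S :=
      Multiset.count_filter_of_pos ⟨hD h2, hr y⟩
    have h6 := Multiset.count_le_card y (S.filter fun y' => y' ∈ B ∧ near y y')
    omega
  · rw [Multiset.count_eq_zero_of_notMem hy]
    omega

open Classical in
lemma iso_pair {y y' : X} (hy : y ∈ iso B D near S) (hy' : y' ∈ S) (hB : y ∈ B) (hB' : y' ∈ B)
    (hr : near y y) (hn : near y y') : y = y' := by
  by_contra hne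
  obtain ⟨h1, h2, h3⟩ := mem_iso.1 hy
  have h4 : ({y, y'} : Finset X) ⊆ (S.filter fun y' => y' ∈ B ∧ near y y').toFinset := by
    intro z hz
    rw [Multiset.mem_toFinset, Multiset.mem_filter]
    rw [Finset.mem_insert, Finset.mem_singleton] at hz
    rcases hz with rfl | rfl
    · exact ⟨h1, hB, hr⟩
    · exact ⟨hy', hB', hn⟩
  have h5 := Finset.card_le_card h4
  rw [Finset.card_pair hne] at h5
  have h6 := Multiset.toFinset_card_le (S.filter fun y' => y' ∈ B ∧ near y y')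
  omega

end isos

section capt

variable {n : ℕ} {L : ℝ} [hL : Fact (0 < L)]

/-- the boundary layer of a block -/
def bdl (n : ℕ) (L b r : ℝ) (i : Fin n → ℕ) : Set (Tor n L) := blk n L b i \ gb n L b r i

lemma mem_good {b r : ℝ} {i : Fin n → ℕ} {y : Tor n L} (h : y ∈ blk n L b i \ bdl n L b r i) :
    y ∈ blk n L b i ∧ y ∈ gb n L b r i := by
  refine ⟨h.1, ?_⟩
  by_contra h2
  exact h.2 ⟨h.1, h2⟩

/-- the average over a cube -/
lemma av_tc {r : ℝ} (hr0 : 0 < r) (hr : r < L / 2) {F : Multiset (Tor n L) → ℂ} (hF : EB F)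
    (y : Tor n L) (γ : Cf (Tor n L)) :
    av volume (tc y r) F (ms γ) = (((2 * r) ^ n : ℝ) : ℂ)⁻¹ *
      ∫ z in cube n r, F ((y + pr L z) ::ₘ ms γ) := by
  unfold av
  rw [tc_vol hr0.le hr, ENNReal.toReal_ofReal (by positivity)]
  congr 1
  exact int_tc hr (g := fun x => F (x ::ₘ ms γ)) (ebd hF γ).1 y

open Classical in
lemma capt_pt (hC : S_CAPT) {b r μ γ₀ : ℝ} {q : ℕ}
    (hex : ∀ x : Tor n L, ∃! i : Fin n → Fin q, x ∈ blk n L b (fun c => (i c : ℕ)))
    (hr : 0 < r) (hrL : r < L / 2) (hμ : 0 ≤ μ) (hγ : 0 ≤ γ₀) {v : ℝ → ℝ≥0∞} (hv : Measurable v)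
    (hCap : Cap n μ v γ₀ r) {F : Multiset (Tor n L) → ℂ} (hF : EB F) (γ : Cf (Tor n L)) :
    ENNReal.ofReal γ₀ * ∑ i : Fin n → Fin q,
      ((iso (blk n L b (fun c => (i c : ℕ))) (blk n L b (fun c => (i c : ℕ)) \
        bdl n L b r (fun c => (i c : ℕ))) (nr r) (ms γ)).map fun y =>
          ‖av volume (tc y r) F (ms γ)‖ₑ ^ 2).sum ≤
      ken1 (ENNReal.ofReal μ) (fun _ => 0) (fun x => F (x ::ₘ ms γ)) +
        2⁻¹ * ((ms γ).map fun y => ∫⁻ x, v (tdist x y) * ‖F (x ::ₘ ms γ)‖ₑ ^ 2).sum := by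
  set I : (Fin n → Fin q) → Multiset (Tor n L) := fun i =>
    iso (blk n L b (fun c => (i c : ℕ))) (blk n L b (fun c => (i c : ℕ)) \
        bdl n L b r (fun c => (i c : ℕ))) (nr r) (ms γ) with hI
  have hmem : ∀ i, ∀ y ∈ I i, y ∈ ms γ ∧ y ∈ blk n L b (fun c => (i c : ℕ)) ∧
      y ∈ gb n L b r (fun c => (i c : ℕ)) := by
    intro i y hy
    obtain ⟨h1, h2, -⟩ := mem_iso.1 hy
    exact ⟨h1, mem_good h2⟩
  have hnd : ∀ i, (I i).Nodup := fun i => iso_nodup Set.sdiff_subset (nr_refl hr)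
  set G : Finset (Tor n L) := Finset.univ.biUnion fun i => (I i).toFinset with hG
  have hGm : ∀ y ∈ G, ∃ i, y ∈ I i := by
    intro y hy
    obtain ⟨i, -, h⟩ := Finset.mem_biUnion.1 hy
    exact ⟨i, Multiset.mem_toFinset.1 h⟩
  have hsum : ∀ φ : Tor n L → ℝ≥0∞, ∑ y ∈ G, φ y = ∑ i, ((I i).map φ).sum := by
    intro φ
    rw [hG, Finset.sum_biUnion]
    · refine Finset.sum_congr rfl fun i _ => ?_
      unfold Finset.sum
      rw [Multiset.toFinset_val, (hnd i).dedup]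
    · intro i _ j _ hij
      rw [Function.onFun, Finset.disjoint_left]
      intro y hy hy'
      exact hij ((hex y).unique (hmem i y (Multiset.mem_toFinset.1 hy)).2.1
        (hmem j y (Multiset.mem_toFinset.1 hy')).2.1)
  have hle : ∀ φ : Tor n L → ℝ≥0∞, ∑ y ∈ G, φ y ≤ ((ms γ).map φ).sum := by
    intro φ
    have h1 : G.val ≤ ms γ := by
      rw [Multiset.le_iff_subset G.nodup]
      intro y hy
      obtain ⟨i, hi⟩ := hGm y hy
      exact (hmem i y hi).1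
    obtain ⟨u, hu⟩ := Multiset.le_iff_exists_add.1 h1
    rw [hu, Multiset.map_add, Multiset.sum_add]
    exact le_self_add
  obtain ⟨hfm, hfb⟩ := ebd hF γ
  have key := hC n L μ γ₀ r v G (fun x => F (x ::ₘ ms γ)) hμ hγ hr (by linarith) hv hCap hfm hfb ?_
  · have e1 : ∀ y, ‖av volume (tc y r) F (ms γ)‖ₑ ^ 2 =
        ‖(((2 * r) ^ n : ℝ) : ℂ)⁻¹ * ∫ z in cube n r, F ((y + pr L z) ::ₘ ms γ)‖ₑ ^ 2 := by
      intro y
      rw [av_tc hr hrL hF]
    rw [← hsum]
    simp only [e1]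
    refine key.trans (add_le_add ?_ (mul_le_mul' le_rfl (hle _)))
    unfold ken1
    exact le_self_add
  · intro y hy y' hy' hne z hz z' hz' heq
    obtain ⟨i, hi⟩ := hGm y hy
    obtain ⟨j, hj⟩ := hGm y' hy'
    obtain ⟨a1, a2, a3⟩ := hmem i y hi
    obtain ⟨b1, b2, b3⟩ := hmem j y' hj
    have h1 := tc_sub hr _ y a3 (pr_mem_tc hz)
    have h2 := tc_sub hr _ y' b3 (pr_mem_tc hz')
    rw [← heq] at h2
    have hij : i = j := (hex _).unique h1 h2
    subst hij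
    exact hne (iso_pair hi b1 a2 b2 (nr_refl hr y) (nr_meet hz hz' heq))

end capt

section nums

lemma num1 {B ε : ℝ} (hB : 0 < B) (hε1 : ε ≤ 1) (N : ℕ) :
    ENNReal.ofReal ((1 - ε) * N ^ 2 / B) = ENNReal.ofReal ((1 - ε) / B) * (N : ℝ≥0∞) ^ 2 := by
  have h1 : (1 - ε) * N ^ 2 / B = (1 - ε) / B * (N : ℝ) ^ 2 := by ring
  rw [h1, ENNReal.ofReal_mul (div_nonneg (by linarith) hB.le), ENNReal.ofReal_pow (Nat.cast_nonneg _),
    ENNReal.ofReal_natCast]

lemma num2 {b r : ℝ} {n N κ : ℕ} (hb : 0 < b) (hr : 0 < r) (hN : N ≤ κ) :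
    (N : ℝ) / b ^ n + (N : ℝ) ^ 2 / (b ^ n) ^ 2 * (2 * (2 * n * r / b * b ^ n) +
      2 * (4 * r) ^ n * N) ≤
    κ / b ^ n + κ ^ 2 / b ^ n * (4 * n * r / b + 2 * κ * (4 * r / b) ^ n) := by
  have hNr : (N : ℝ) ≤ κ := by exact_mod_cast hN
  have hN0 : (0 : ℝ) ≤ N := Nat.cast_nonneg _
  have hbn : 0 < b ^ n := pow_pos hb n
  have e1 : (N : ℝ) ^ 2 / (b ^ n) ^ 2 * (2 * (2 * n * r / b * b ^ n) + 2 * (4 * r) ^ n * N) =
      (N : ℝ) ^ 2 / b ^ n * (4 * n * r / b + 2 * N * (4 * r / b) ^ n) := by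
    rw [div_pow]
    field_simp
    ring
  rw [e1]
  have h2 : (N : ℝ) ^ 2 ≤ κ ^ 2 := pow_le_pow_left₀ hN0 hNr 2
  refine add_le_add (div_le_div_of_nonneg_right hNr hbn.le) ?_
  refine mul_le_mul (div_le_div_of_nonneg_right h2 hbn.le) ?_ (by positivity) (by positivity)
  refine add_le_add le_rfl ?_
  refine mul_le_mul_of_nonneg_right ?_ (by positivity)
  linarith

lemma num3 {B ε Q : ℝ} {N κ : ℕ} (hB : 0 < B) (hε : 0 < ε) (hQ : 0 < Q) (hN1 : 1 ≤ N)
    (hN : N ≤ κ) :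
    (3 * (N : ℝ) + 2 * N ^ 2) / B + N / (ε * Q) ≤ 5 * κ ^ 2 / B + κ / (ε * Q) := by
  have hNr : (N : ℝ) ≤ κ := by exact_mod_cast hN
  have hN1' : (1 : ℝ) ≤ N := by exact_mod_cast hN1
  refine add_le_add (div_le_div_of_nonneg_right ?_ hB.le)
    (div_le_div_of_nonneg_right hNr (by positivity))
  nlinarith

end nums

section main

open Classical in
theorem lay : S_ONE → S_CAPT → S_PO2 → S_FIB → S_TF → S_BLK → S_LAY := by
  intro hONE hC hPO2 hFIB hTF hBLK n L b r μ γ₀ ε CP hL v q κ hn hμ hv hγ hCap hPO hCP hε hε1 hr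
    h4r hb1 hq hLb F hF
  have hb0 : 0 < b := by linarith
  have hq2 : (2 : ℝ) ≤ q := by exact_mod_cast hq
  have hbL2 : 2 * b ≤ L := by rw [hLb]; nlinarith
  have hbL : b ≤ L := by linarith
  have hbn : 0 < b ^ n := pow_pos hb0 n
  have hq1 : 1 ≤ q := by omega
  have hblk := hBLK n L b q hq1 hLb
  have hex := hblk.2.1
  have hfin : IsFiniteMeasure (lam (volume : Measure (Tor n L))) := lamfin _
  set B : (Fin n → Fin q) → Set (Tor n L) := fun i => blk n L b (fun c => (i c : ℕ)) with hBd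
  set bd : (Fin n → Fin q) → Set (Tor n L) := fun i => bdl n L b r (fun c => (i c : ℕ)) with hbd
  have hBm : ∀ i, MeasurableSet (B i) := fun i => blk_meas hbL _
  have hbdm : ∀ i, MeasurableSet (bd i) := fun i => (blk_meas hbL _).diff (gb_meas hr hbL _)
  set E1 : ℝ := κ / b ^ n + κ ^ 2 / b ^ n * (4 * n * r / b + 2 * κ * (4 * r / b) ^ n) with hE1
  set E2 : ℝ := 5 * κ ^ 2 / b ^ n + κ / (ε * (2 * r) ^ n) with hE2
  have hE1n : 0 ≤ E1 := by positivity
  have hE2n : 0 ≤ E2 := by positivity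
  -- one block with `N` particles
  have hone : ∀ i : Fin n → Fin q, ∀ N ∈ Finset.Icc 1 κ,
      ENNReal.ofReal ((1 - ε) / b ^ n) * ((N : ℝ≥0∞) ^ 2 * nE volume (rs (B i) N F)) ≤
        ENNReal.ofReal E1 * nE volume (rs (B i) N F) +
        ENNReal.ofReal E2 * dp volume (B i) (rs (B i) N F) +
        ∫⁻ γ, ((iso (B i) (B i \ bd i) (nr r) (ms γ)).map fun y =>
          ‖av volume (tc y r) (rs (B i) N F) (ms γ)‖ₑ ^ 2).sum ∂(lam volume) := by
    intro i N hN
    obtain ⟨hN1, hN2⟩ := Finset.mem_Icc.1 hN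
    have h1 := hONE (Tor n L) volume (B i) (bd i) (nr r) (fun y => tc y r) N (b ^ n)
      ((2 * r) ^ n) ((4 * r) ^ n) (2 * n * r / b * b ^ n) ε (rs (B i) N F) (hBm i) (hbdm i)
      (tc_prod_meas (2 * r)) (tc_prod_meas r) hbn (blk_vol hb0 hbL _) Set.sdiff_subset
      (by positivity) (bd_vol hb0 hr (by linarith) hbL _) (nr_refl hr) nr_symm (by positivity)
      ?_ (by positivity) ?_ hε hε1 (rs_eb (hBm i) N hF) (fun S hS => rs_zero _ _ _ _ hS)
    · rw [num1 hbn hε1, mul_assoc] at h1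
      refine h1.trans (add_le_add (add_le_add (mul_le_mul' ?_ le_rfl) (mul_le_mul' ?_ le_rfl))
        le_rfl)
      · exact ENNReal.ofReal_le_ofReal (num2 hb0 hr hN2)
      · exact ENNReal.ofReal_le_ofReal (num3 hbn hε (by positivity) hN1 hN2)
    · intro y _
      have h2 : volume (tc y (2 * r)) = ENNReal.ofReal ((4 * r) ^ n) := by
        rw [tc_vol (by linarith) (by linarith)]
        congr 2
        ring
      rw [← h2]
      exact measure_mono fun y' hy' => hy'.2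
    · intro y hy hy2
      have h3 : y ∈ gb n L b r (fun c => (i c : ℕ)) := by
        by_contra h4
        exact hy2 ⟨hy, h4⟩
      exact ⟨tc_sub hr _ y h3, tc_vol hr.le (by linarith) y⟩
  -- one block
  have hblock : ∀ i : Fin n → Fin q,
      ENNReal.ofReal ((1 - ε) / b ^ n) * ∫⁻ γ,
        (if cnt (B i) (ms γ) ≤ κ then (cnt (B i) (ms γ) : ℝ≥0∞) ^ 2 else 0) * ‖F (ms γ)‖ₑ ^ 2
          ∂(lam volume) ≤
        ENNReal.ofReal E1 * nE volume F + ENNReal.ofReal E2 * dp volume (B i) F +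
        ∫⁻ γ, ((iso (B i) (B i \ bd i) (nr r) (ms γ)).map fun y =>
          ‖av volume (tc y r) F (ms γ)‖ₑ ^ 2).sum ∂(lam volume) := by
    intro i
    refine (mul_le_mul' le_rfl (nE_sum_sq volume (hBm i) κ hF)).trans ?_
    rw [Finset.mul_sum]
    refine (Finset.sum_le_sum fun N hN => hone i N hN).trans ?_
    rw [Finset.sum_add_distrib, Finset.sum_add_distrib, ← Finset.mul_sum, ← Finset.mul_sum]
    refine add_le_add (add_le_add (mul_le_mul' le_rfl (nE_sum volume (B i) κ F))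
      (mul_le_mul' le_rfl (dp_sum volume (hBm i) κ F))) ?_
    refine (sum_lint_le _ _ _).trans (lintegral_mono fun γ => ?_)
    simp only
    rw [Pool.Agent.W571.CB.La.swap_sum]
    refine Multiset.sum_map_le_sum_map _ _ fun y hy => ?_
    obtain ⟨-, h2, -⟩ := mem_iso.1 hy
    have h3 := (mem_good h2).2
    have h4 : ∀ N ∈ Finset.Icc 1 κ, ‖av volume (tc y r) (rs (B i) N F) (ms γ)‖ₑ ^ 2 =
        if cnt (B i) (ms γ) + 1 = N then ‖av volume (tc y r) F (ms γ)‖ₑ ^ 2 else 0 := by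
      intro N _
      rw [av_rs volume (meas_tc y r) (tc_sub hr _ y h3)]
      split_ifs <;> simp
    rw [Finset.sum_congr rfl h4]
    exact sum_ite_le κ _ _
  -- all blocks
  set R : Cf (Tor n L) → ℝ≥0∞ := fun γ => ∑ i : Fin n → Fin q,
    ((iso (B i) (B i \ bd i) (nr r) (ms γ)).map fun y =>
      ‖av volume (tc y r) F (ms γ)‖ₑ ^ 2).sum with hR
  have hall : ENNReal.ofReal ((1 - ε) / b ^ n) * ∑ i : Fin n → Fin q, ∫⁻ γ,
        (if cnt (B i) (ms γ) ≤ κ then (cnt (B i) (ms γ) : ℝ≥0∞) ^ 2 else 0) * ‖F (ms γ)‖ₑ ^ 2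
          ∂(lam volume) ≤
      ((q ^ n : ℕ) : ℝ≥0∞) * (ENNReal.ofReal E1 * nE volume F) +
        ENNReal.ofReal E2 * (ENNReal.ofReal (CP * b ^ 2) *
          ken (ENNReal.ofReal μ) (fun _ => 0) F) + ∫⁻ γ, R γ ∂(lam volume) := by
    rw [Finset.mul_sum]
    refine (Finset.sum_le_sum fun i _ => hblock i).trans ?_
    have s1 : ∑ _i : Fin n → Fin q, (ENNReal.ofReal E1 * nE volume F) =
        ((q ^ n : ℕ) : ℝ≥0∞) * (ENNReal.ofReal E1 * nE volume F) := by
      rw [Finset.sum_const, Finset.card_univ, Fintype.card_fun, Fintype.card_fin,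
        Fintype.card_fin, nsmul_eq_mul]
    have s2 : ∑ i : Fin n → Fin q, ENNReal.ofReal E2 * dp volume (B i) F =
        ENNReal.ofReal E2 * ∑ i : Fin n → Fin q, dp volume (B i) F := by
      rw [Finset.mul_sum]
    rw [Finset.sum_add_distrib, Finset.sum_add_distrib, s1, s2]
    refine add_le_add (add_le_add le_rfl (mul_le_mul' le_rfl ?_)) (sum_lint_le _ _ _)
    exact dp_tot hPO2 hBLK hq1 hLb hb1 hCP hPO hF
  -- the energy
  have hvm : Measurable fun p : Tor n L × Tor n L => v (tdist p.1 p.2) :=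
    ((hTF n L).2.2.2.2.2.2.2 v hv).1
  obtain ⟨hpm, hpe⟩ := pot volume hF (fun x y => v (tdist x y)) hvm
  have hen : ENNReal.ofReal γ₀ * ∫⁻ γ, R γ ∂(lam volume) ≤
      en (ENNReal.ofReal μ) (fun _ => 0) v F := by
    refine (lintegral_const_mul_le _ _).trans ?_
    have h1 : ∫⁻ γ, ENNReal.ofReal γ₀ * R γ ∂(lam volume) ≤
        ∫⁻ γ, (ken1 (ENNReal.ofReal μ) (fun _ => 0) (fun x => F (x ::ₘ ms γ)) +
        2⁻¹ * ((ms γ).map fun y => ∫⁻ x, v (tdist x y) * ‖F (x ::ₘ ms γ)‖ₑ ^ 2).sum)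
          ∂(lam volume) :=
      lintegral_mono fun γ => capt_pt hC hex hr (by linarith) hμ.le hγ hv hCap hF γ
    refine h1.trans (le_of_eq ?_)
    rw [lintegral_add_right _ (hpm.const_mul _), lintegral_const_mul _ hpm, hpe,
      hFIB n L (ENNReal.ofReal μ) (fun _ => 0) measurable_const F hF]
    rfl
  -- the end
  have hqn : ((q ^ n : ℕ) : ℝ≥0∞) = ENNReal.ofReal (L ^ n / b ^ n) := by
    rw [hLb, mul_pow, mul_div_assoc, div_self hbn.ne', mul_one, ← Nat.cast_pow,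
      ENNReal.ofReal_natCast]
  have hL0 : 0 < L := hL.out
  have hLbn : 0 ≤ L ^ n / b ^ n := by positivity
  have e0 : ENNReal.ofReal (γ₀ * (1 - ε) / b ^ n) =
      ENNReal.ofReal γ₀ * ENNReal.ofReal ((1 - ε) / b ^ n) := by
    rw [← ENNReal.ofReal_mul hγ]
    congr 1
    ring
  have e1 : ENNReal.ofReal (γ₀ * (L ^ n / b ^ n) * E1) =
      ENNReal.ofReal γ₀ * ENNReal.ofReal (L ^ n / b ^ n) * ENNReal.ofReal E1 := by
    rw [ENNReal.ofReal_mul (mul_nonneg hγ hLbn), ENNReal.ofReal_mul hγ]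
  have e2 : ENNReal.ofReal (γ₀ * E2 * (CP * b ^ 2)) =
      ENNReal.ofReal γ₀ * ENNReal.ofReal E2 * ENNReal.ofReal (CP * b ^ 2) := by
    rw [ENNReal.ofReal_mul (mul_nonneg hγ hE2n), ENNReal.ofReal_mul hγ]
  rw [e0, e1, e2, ← hqn, mul_assoc]
  refine (mul_le_mul' le_rfl hall).trans ?_
  rw [mul_add, mul_add]
  calc ENNReal.ofReal γ₀ * (((q ^ n : ℕ) : ℝ≥0∞) * (ENNReal.ofReal E1 * nE volume F)) +
        ENNReal.ofReal γ₀ * (ENNReal.ofReal E2 * (ENNReal.ofReal (CP * b ^ 2) *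
          ken (ENNReal.ofReal μ) (fun _ => 0) F)) +
        ENNReal.ofReal γ₀ * ∫⁻ γ, R γ ∂(lam volume) ≤
      ENNReal.ofReal γ₀ * (((q ^ n : ℕ) : ℝ≥0∞) * (ENNReal.ofReal E1 * nE volume F)) +
        ENNReal.ofReal γ₀ * (ENNReal.ofReal E2 * (ENNReal.ofReal (CP * b ^ 2) *
          ken (ENNReal.ofReal μ) (fun _ => 0) F)) +
        en (ENNReal.ofReal μ) (fun _ => 0) v F := add_le_add le_rfl hen
    _ = _ := by ring

end main

end Pool.Agent.W806.CC
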