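import Pool.Agent.W761.CC.Stms
import Pool.Agent.W571.CB.La

/-!
Project CC, part LAY: decomposition of a vector by the number of particles in a block.
-/

set_option autoImplicit false
set_option linter.unusedSectionVars false

open MeasureTheory
open scoped ENNReal

namespace Pool.Agent.W806.CC

open Pool.Agent.W761.CB Pool.Agent.W761.CC

lemma sum_lint_le {α ι : Type*} [MeasurableSpace α] (μ : Measure α) (s : Finset ι)
    (f : ι → α → ℝ≥0∞) : ∑ i ∈ s, ∫⁻ a, f i a ∂μ ≤ ∫⁻ a, ∑ i ∈ s, f i a ∂μ := by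
  classical
  induction s using Finset.induction_on with
  | empty => simp
  | insert i s hi ih =>
    simp only [Finset.sum_insert hi]
    exact (add_le_add le_rfl ih).trans (le_lintegral_add _ _)

lemma sum_ite_le (κ a : ℕ) (c : ℝ≥0∞) :
    ∑ n ∈ Finset.Icc 1 κ, (if a = n then c else 0) ≤ c := by
  rw [Finset.sum_ite_eq]
  split_ifs
  · exact le_rfl
  · exact zero_le

section ebc

variable {X : Type} [MeasurableSpace X]

lemma ebc5 {F : Multiset X → ℂ} (hF : EB F) :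
    Measurable (fun p : X × Cf X => F (p.1 ::ₘ ms p.2)) :=
  (Pool.Agent.W571.CB.La.ebc X (0 : Measure X) F F hF hF).2.2.2.2.1

lemma ebc6 {F : Multiset X → ℂ} (hF : EB F) :
    Measurable (fun p : (X × X) × Cf X => F (p.1.1 ::ₘ p.1.2 ::ₘ ms p.2)) :=
  (Pool.Agent.W571.CB.La.ebc X (0 : Measure X) F F hF hF).2.2.2.2.2.1

lemma ebc8 {F : Multiset X → ℂ} (hF : EB F) :
    ∃ C c : ℝ, 0 ≤ C ∧ 1 ≤ c ∧ ∀ x S, ‖F (x ::ₘ S)‖ ≤ C * c ^ Multiset.card S :=
  (Pool.Agent.W571.CB.La.ebc X (0 : Measure X) F F hF hF).2.2.2.2.2.2.2.1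

variable (ν : Measure X) [IsFiniteMeasure ν]

lemma ebc10 {F : Multiset X → ℂ} (hF : EB F) :
    Measurable (fun p : X × X => dE ν F p.1 p.2) :=
  (Pool.Agent.W571.CB.La.ebc X ν F F hF hF).2.2.2.2.2.2.2.2.2.1

lemma ebc11 {F : Multiset X → ℂ} (hF : EB F) :
    Measurable (fun p : X × X => nE ν (an p.2 (an p.1 F))) :=
  (Pool.Agent.W571.CB.La.ebc X ν F F hF hF).2.2.2.2.2.2.2.2.2.2.1

lemma dE_meas {Y : Type} [MeasurableSpace Y] {F : Multiset X → ℂ} (hF : EB F) (φ ψ : Y → X)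
    (hφ : Measurable φ) (hψ : Measurable ψ) : Measurable fun y => dE ν F (φ y) (ψ y) := by
  have hdE := ebc10 ν hF
  have h : Measurable fun y => ((φ y, ψ y) : X × X) := hφ.prodMk hψ
  have h2 := hdE.comp h
  exact h2

lemma lamfin : IsFiniteMeasure (lam ν) := (Pool.Agent.W571.CB.La.slam X ν).2.1

end ebc

section gen

variable {X : Type}

open Classical in
/-- the part of `F` with exactly `N` particles in `B` -/
noncomputable def rs (B : Set X) (N : ℕ) (F : Multiset X → ℂ) : Multiset X → ℂ :=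
  fun S => if cnt B S = N then F S else 0

lemma rs_cons (B : Set X) (N : ℕ) (F : Multiset X → ℂ) (x : X) (hx : x ∈ B) (S : Multiset X) :
    rs B N F (x ::ₘ S) = if cnt B S + 1 = N then F (x ::ₘ S) else 0 := by
  classical
  unfold rs
  rw [Pool.Agent.W571.CB.La.cnt_cons B x S hx]

lemma rs_zero (B : Set X) (N : ℕ) (F : Multiset X → ℂ) (S : Multiset X) (h : cnt B S ≠ N) :
    rs B N F S = 0 := by
  classical
  unfold rs
  rw [if_neg h]

variable [MeasurableSpace X]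

lemma rs_eb {B : Set X} (hB : MeasurableSet B) (N : ℕ) {F : Multiset X → ℂ} (hF : EB F) :
    EB (rs B N F) := by
  classical
  refine ⟨?_, ?_⟩
  · unfold rs
    refine Measurable.ite ?_ hF.meas measurable_const
    exact Pool.Agent.W571.CB.La.meas_cnt B hB (measurableSet_singleton N)
  · obtain ⟨C, c, hC, hc, h⟩ := hF.bdd
    refine ⟨C, c, hC, hc, fun S => ?_⟩
    unfold rs
    split_ifs
    · exact h S
    · rw [norm_zero]
      positivity

variable (ν : Measure X)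

lemma av_rs {B C : Set X} (hC : MeasurableSet C) (hCB : C ⊆ B) (N : ℕ) (F : Multiset X → ℂ)
    (S : Multiset X) :
    av ν C (rs B N F) S = if cnt B S + 1 = N then av ν C F S else 0 := by
  unfold av
  have h1 : ∫ x in C, rs B N F (x ::ₘ S) ∂ν =
      ∫ x in C, (if cnt B S + 1 = N then F (x ::ₘ S) else 0) ∂ν :=
    setIntegral_congr_fun hC fun x hx => rs_cons B N F x (hCB hx) S
  rw [h1]
  split_ifs
  · rfl
  · simp

lemma dp_sum {B : Set X} (hB : MeasurableSet B) (κ : ℕ) (F : Multiset X → ℂ) :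
    ∑ N ∈ Finset.Icc 1 κ, dp ν B (rs B N F) ≤ dp ν B F := by
  unfold dp
  refine (sum_lint_le _ _ _).trans ?_
  refine setLIntegral_mono' hB fun x hx => ?_
  unfold nE
  refine (sum_lint_le _ _ _).trans (lintegral_mono fun γ => ?_)
  have h1 : ∀ N ∈ Finset.Icc 1 κ,
      ‖rs B N F (x ::ₘ ms γ) - av ν B (rs B N F) (ms γ)‖ₑ ^ 2 =
      if cnt B (ms γ) + 1 = N then ‖F (x ::ₘ ms γ) - av ν B F (ms γ)‖ₑ ^ 2 else 0 := by
    intro N _
    rw [rs_cons B N F x hx, av_rs ν hB (subset_refl B)]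
    split_ifs <;> simp
  simp only
  rw [Finset.sum_congr rfl h1]
  exact sum_ite_le κ _ _

lemma nE_sum (B : Set X) (κ : ℕ) (F : Multiset X → ℂ) :
    ∑ N ∈ Finset.Icc 1 κ, nE ν (rs B N F) ≤ nE ν F := by
  classical
  unfold nE
  refine (sum_lint_le _ _ _).trans (lintegral_mono fun γ => ?_)
  have h1 : ∀ N ∈ Finset.Icc 1 κ, ‖rs B N F (ms γ)‖ₑ ^ 2 =
      if cnt B (ms γ) = N then ‖F (ms γ)‖ₑ ^ 2 else 0 := by
    intro N _
    unfold rs
    split_ifs <;> simp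
  simp only
  rw [Finset.sum_congr rfl h1]
  exact sum_ite_le κ _ _

lemma nE_sum_sq {B : Set X} (hB : MeasurableSet B) (κ : ℕ) {F : Multiset X → ℂ} (hF : EB F) :
    ∫⁻ γ, (if cnt B (ms γ) ≤ κ then (cnt B (ms γ) : ℝ≥0∞) ^ 2 else 0) * ‖F (ms γ)‖ₑ ^ 2 ∂(lam ν) ≤
      ∑ N ∈ Finset.Icc 1 κ, (N : ℝ≥0∞) ^ 2 * nE ν (rs B N F) := by
  classical
  unfold nE
  have hm : ∀ N : ℕ, Measurable fun γ : Cf X => ‖rs B N F (ms γ)‖ₑ ^ 2 := fun N =>
    (rs_eb hB N hF).meas.enorm.pow_const 2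
  have e1 : ∀ N : ℕ, (N : ℝ≥0∞) ^ 2 * ∫⁻ γ, ‖rs B N F (ms γ)‖ₑ ^ 2 ∂(lam ν) =
      ∫⁻ γ, (N : ℝ≥0∞) ^ 2 * ‖rs B N F (ms γ)‖ₑ ^ 2 ∂(lam ν) := fun N =>
    (lintegral_const_mul _ (hm N)).symm
  simp only [e1]
  rw [← lintegral_finsetSum _ fun N _ => (hm N).const_mul _]
  refine lintegral_mono fun γ => ?_
  have h1 : ∀ N ∈ Finset.Icc 1 κ, (N : ℝ≥0∞) ^ 2 * ‖rs B N F (ms γ)‖ₑ ^ 2 =
      if cnt B (ms γ) = N then (N : ℝ≥0∞) ^ 2 * ‖F (ms γ)‖ₑ ^ 2 else 0 := by
    intro N _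
    unfold rs
    split_ifs <;> simp
  rw [Finset.sum_congr rfl h1, Finset.sum_ite_eq]
  by_cases h0 : cnt B (ms γ) = 0
  · simp [h0]
  · by_cases hκ : cnt B (ms γ) ≤ κ
    · rw [if_pos (Finset.mem_Icc.2 ⟨by omega, hκ⟩), if_pos hκ]
    · rw [if_neg hκ, zero_mul]
      exact zero_le

/-- Cauchy-Schwarz -/
lemma cs (f : X → ℝ≥0∞) (hf : Measurable f) : (∫⁻ x, f x ∂ν) ^ 2 ≤ ν Set.univ * ∫⁻ x, f x ^ 2 ∂ν := by
  have hpq : (2 : ℝ).HolderConjugate 2 := by
    rw [Real.holderConjugate_iff]; norm_num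
  have h := ENNReal.lintegral_mul_le_Lp_mul_Lq ν hpq hf.aemeasurable (g := fun _ => 1)
    aemeasurable_const
  simp only [Pi.mul_apply, mul_one, ENNReal.one_rpow, lintegral_const, one_mul] at h
  have h2 := pow_le_pow_left₀ (zero_le (a := ∫⁻ x, f x ∂ν)) h 2
  refine h2.trans (le_of_eq ?_)
  rw [mul_pow, ← ENNReal.rpow_natCast, ← ENNReal.rpow_natCast, ← ENNReal.rpow_mul,
    ← ENNReal.rpow_mul]
  norm_num
  rw [mul_comm]

variable [IsFiniteMeasure ν]

lemma ebd {F : Multiset X → ℂ} (hF : EB F) (γ : Cf X) :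
    Measurable (fun x => F (x ::ₘ ms γ)) ∧ ∃ C : ℝ, ∀ x, ‖F (x ::ₘ ms γ)‖ ≤ C := by
  have hF2 := ebc5 hF
  obtain ⟨CC, cc, hCC, hcc, hbd⟩ := ebc8 hF
  exact ⟨hF2.comp (measurable_prodMk_right (y := γ)), CC * cc ^ Multiset.card (ms γ),
    fun x => hbd x _⟩

/-- the variance is at most the mean square difference -/
lemma var_le {B : Set X} (hB : MeasurableSet B) (hB0 : ν B ≠ 0) (f : X → ℂ) (hf : Measurable f)
    (hb : ∃ C : ℝ, ∀ x, ‖f x‖ ≤ C) (a : ℂ) :
    ‖a - ((ν B).toReal : ℂ)⁻¹ * ∫ y in B, f y ∂ν‖ₑ ^ 2 ≤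
      (ν B)⁻¹ * ∫⁻ y in B, ‖a - f y‖ₑ ^ 2 ∂ν := by
  have hfin : ν B ≠ ⊤ := measure_ne_top ν B
  have hr : 0 < (ν B).toReal := ENNReal.toReal_pos hB0 hfin
  obtain ⟨C, hC⟩ := hb
  have hint : Integrable f (ν.restrict B) :=
    Integrable.of_bound hf.aestronglyMeasurable C (Filter.Eventually.of_forall hC)
  have hr' : ((ν B).toReal : ℂ) ≠ 0 := by exact_mod_cast hr.ne'
  have e1 : a - ((ν B).toReal : ℂ)⁻¹ * ∫ y in B, f y ∂ν =
      ((ν B).toReal : ℂ)⁻¹ * ∫ y in B, (a - f y) ∂ν := by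
    rw [integral_sub (integrable_const a) hint, integral_const, mul_sub]
    congr 1
    rw [measureReal_restrict_apply MeasurableSet.univ, Set.univ_inter, Complex.real_smul,
      Measure.real, ← mul_assoc, inv_mul_cancel₀ hr', one_mul]
  rw [e1, enorm_mul, mul_pow]
  have h2 : ‖∫ y in B, (a - f y) ∂ν‖ₑ ^ 2 ≤ ν B * ∫⁻ y in B, ‖a - f y‖ₑ ^ 2 ∂ν := by
    refine (pow_le_pow_left₀ (zero_le) (enorm_integral_le_lintegral_enorm _) 2).trans ?_
    have := cs (ν.restrict B) (fun y => ‖a - f y‖ₑ) ((hf.const_sub a).enorm)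
    rwa [Measure.restrict_apply_univ] at this
  have h3 : ‖(((ν B).toReal : ℂ))⁻¹‖ₑ = (ν B)⁻¹ := by
    rw [enorm_inv hr']
    congr 1
    rw [← ofReal_norm, Complex.norm_real, Real.norm_of_nonneg hr.le, ENNReal.ofReal_toReal hfin]
  rw [h3]
  refine (mul_le_mul' le_rfl h2).trans (le_of_eq ?_)
  rw [← mul_assoc, pow_two, mul_assoc (ν B)⁻¹, ENNReal.inv_mul_cancel hB0 hfin, mul_one]

lemma dp_le {B : Set X} (hB : MeasurableSet B) (hB0 : ν B ≠ 0) {F : Multiset X → ℂ} (hF : EB F) :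
    dp ν B F ≤ (ν B)⁻¹ * ∫⁻ x in B, ∫⁻ y in B, dE ν F y x ∂ν ∂ν := by
  have hfin : IsFiniteMeasure (lam ν) := lamfin ν
  have hF2 := ebc5 hF
  have hne : (ν B)⁻¹ ≠ ⊤ := ENNReal.inv_ne_top.2 hB0
  unfold dp
  rw [← lintegral_const_mul' _ _ hne]
  refine lintegral_mono fun x => ?_
  unfold nE
  have h1 : ∀ γ : Cf X, ‖F (x ::ₘ ms γ) - av ν B F (ms γ)‖ₑ ^ 2 ≤
      (ν B)⁻¹ * ∫⁻ y in B, ‖F (x ::ₘ ms γ) - F (y ::ₘ ms γ)‖ₑ ^ 2 ∂ν := by
    intro γ
    obtain ⟨h1, h2⟩ := ebd hF γ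
    exact var_le ν hB hB0 _ h1 h2 _
  refine (lintegral_mono h1).trans ?_
  rw [lintegral_const_mul' _ _ hne]
  refine mul_le_mul' le_rfl ?_
  rw [lintegral_lintegral_swap]
  · refine lintegral_mono fun y => ?_
    unfold dE nE
    refine le_of_eq (lintegral_congr fun γ => ?_)
    rw [← enorm_neg, neg_sub]
  · refine Measurable.aemeasurable ?_
    refine Measurable.pow_const ?_ 2
    refine Measurable.enorm ?_
    refine Measurable.sub ?_ ?_
    · exact hF2.comp ((measurable_const (a := x)).prodMk measurable_fst)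
    · exact hF2.comp (measurable_snd.prodMk measurable_fst)

/-- the potential energy with the Mecke formula -/
lemma pot {F : Multiset X → ℂ} (hF : EB F) (V : X → X → ℝ≥0∞)
    (hvm : Measurable fun p : X × X => V p.1 p.2) :
    Measurable (fun γ : Cf X =>
      ((ms γ).map fun y => ∫⁻ x, V x y * ‖F (x ::ₘ ms γ)‖ₑ ^ 2 ∂ν).sum) ∧
    ∫⁻ γ, ((ms γ).map fun y => ∫⁻ x, V x y * ‖F (x ::ₘ ms γ)‖ₑ ^ 2 ∂ν).sum ∂(lam ν) =
      ∫⁻ x, ∫⁻ y, V x y * nE ν (an y (an x F)) ∂ν ∂ν := by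
  have hfin : IsFiniteMeasure (lam ν) := lamfin ν
  have hF2 := ebc5 hF
  have hF3 := ebc6 hF
  have hF4 := ebc11 ν hF
  set Ψ : X → Multiset X → ℝ≥0∞ := fun y S =>
    ∫⁻ x, V x y * ‖F (x ::ₘ S)‖ₑ ^ 2 ∂ν with hΨ
  have hΨm : Measurable (fun p : X × Cf X => Ψ p.1 (ms p.2)) := by
    simp only [hΨ]
    refine Measurable.lintegral_prod_right' (f := fun q : (X × Cf X) × X =>
      V q.2 q.1.1 * ‖F (q.2 ::ₘ ms q.1.2)‖ₑ ^ 2) ?_
    refine Measurable.mul ?_ ?_
    · have h1 : Measurable (fun q : (X × Cf X) × X => ((q.2, q.1.1) : X × X)) :=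
        measurable_snd.prodMk (measurable_fst.comp measurable_fst)
      exact hvm.comp h1
    · have h1 : Measurable (fun q : (X × Cf X) × X => ((q.2, q.1.2) : X × Cf X)) :=
        measurable_snd.prodMk (measurable_snd.comp measurable_fst)
      exact (hF2.comp h1).enorm.pow_const 2
  have hsum : Measurable fun γ : Cf X => ((ms γ).map fun y => Ψ y (ms γ)).sum := by
    have h1 := Pool.Agent.W975.CB.sum_meas (X := X) (Z := ℝ≥0∞) (Cf X)
      (fun γ y => Ψ y (ms γ)) (hΨm.comp measurable_swap)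
    have h2 : Measurable fun γ : Cf X => ((γ, γ) : Cf X × Cf X) := measurable_id.prodMk measurable_id
    have h3 := h1.comp h2
    simp only [Function.comp_def] at h3
    exact h3
  refine ⟨hsum, ?_⟩
  rw [Pool.Agent.W571.CB.La.mecke X ν Ψ hΨm]
  have e2 : ∀ y, ∫⁻ γ, Ψ y (y ::ₘ ms γ) ∂(lam ν) = ∫⁻ x, V x y * nE ν (an y (an x F)) ∂ν := by
    intro y
    simp only [hΨ]
    rw [lintegral_lintegral_swap]
    · refine lintegral_congr fun x => ?_
      unfold nE an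
      rw [lintegral_const_mul]
      exact (hF3.comp (measurable_prodMk_left (x := ((x, y) : X × X)))).enorm.pow_const 2
    · refine Measurable.aemeasurable ?_
      refine Measurable.mul ?_ ?_
      · have h1 : Measurable (fun q : Cf X × X => ((q.2, y) : X × X)) :=
          measurable_snd.prodMk measurable_const
        exact hvm.comp h1
      · have h1 : Measurable (fun q : Cf X × X => (((q.2, y), q.1) : (X × X) × Cf X)) :=
          (measurable_snd.prodMk measurable_const).prodMk measurable_fst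
        exact (hF3.comp h1).enorm.pow_const 2
  simp only [e2]
  have hs : Measurable fun q : X × X => ((q.2, q.1) : X × X) :=
    measurable_snd.prodMk measurable_fst
  have h5 : Measurable fun q : X × X => V q.2 q.1 := hvm.comp hs
  have h6 := hF4.comp hs
  have h7 : Measurable fun q : X × X => nE ν (an q.1 (an q.2 F)) := h6
  have h8 : Measurable fun q : X × X => V q.2 q.1 * nE ν (an q.1 (an q.2 F)) := h5.mul h7
  exact lintegral_lintegral_swap h8.aemeasurable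

end gen

end Pool.Agent.W806.CC
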