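import Pool.Agent.W806.CC.LayA
import Pool.Agent.W372.CB.LA1a
import Pool.Agent.W374.CB2.Blk
import Pool.Agent.W135.CB.Tf

/-!
Project CC, part LAY: blocks and cubes on the torus.
-/

set_option autoImplicit false
set_option linter.unusedSectionVars false

open MeasureTheory
open scoped ENNReal

namespace Pool.Agent.W806.CC

open Pool.Agent.W761.CB Pool.Agent.W761.CC
open Pool.Agent.W372.CB (tc meas_tc tr vol_cube meas_cube)

section circle

variable {L : ℝ} [hL : Fact (0 < L)]

/-- an arc -/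
def ar (L a b : ℝ) : Set (AddCircle L) := {y | ∃ t : ℝ, a ≤ t ∧ t < b ∧ y = (t : AddCircle L)}

lemma ar_eq {a b : ℝ} (hbL : b ≤ a + L) :
    ar L a b = {y | ((AddCircle.measurableEquivIco L a y : _) : ℝ) < b} := by
  ext y
  constructor
  · rintro ⟨t, h1, h2, h3⟩
    have hm : t ∈ Set.Ico a (a + L) := ⟨h1, by linarith⟩
    change ((AddCircle.equivIco L a y : _) : ℝ) < _
    rw [h3, AddCircle.equivIco_coe_eq hm]
    exact h2
  · intro h
    change ((AddCircle.equivIco L a y : _) : ℝ) < _ at h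
    refine ⟨_, (AddCircle.equivIco L a y).2.1, h, ?_⟩
    exact AddCircle.coe_equivIco.symm

lemma ar_meas {a b : ℝ} (hbL : b ≤ a + L) : MeasurableSet (ar L a b) := by
  rw [ar_eq hbL]
  exact measurableSet_lt
    (measurable_subtype_coe.comp (AddCircle.measurableEquivIco L a).measurable)
    measurable_const

lemma ar_vol {a b : ℝ} (hbL : b ≤ a + L) :
    volume (ar L a b) = ENNReal.ofReal (b - a) := by
  rw [AddCircle.add_projection_respects_measure L a (ar_meas hbL)]
  apply le_antisymm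
  · have hsub : (QuotientAddGroup.mk ⁻¹' (ar L a b) ∩ Set.Ioc a (a + L) : Set ℝ) ⊆
        Set.Ico a b ∪ {a + L} := by
      rintro t ⟨h1, h2⟩
      by_cases h : t = a + L
      · right; exact h
      · left
        obtain ⟨t', h3, h4, h5⟩ := h1
        have hm : t ∈ Set.Ico a (a + L) := ⟨h2.1.le, lt_of_le_of_ne h2.2 h⟩
        have hm' : t' ∈ Set.Ico a (a + L) := ⟨h3, by linarith⟩
        have := (AddCircle.coe_eq_coe_iff_of_mem_Ico hm hm').1 h5
        rw [this]
        exact ⟨h3, h4⟩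
    refine (measure_mono hsub).trans ((measure_union_le _ _).trans ?_)
    rw [Real.volume_Ico, Real.volume_singleton, add_zero]
  · rw [← Real.volume_Ioo]
    refine measure_mono ?_
    rintro t ⟨h1, h2⟩
    exact ⟨⟨t, h1.le, h2, rfl⟩, h1, by linarith⟩

lemma norm_co_le (t : ℝ) : ‖(t : AddCircle L)‖ ≤ |t| := by
  have h := AddCircle.norm_eq (p := L) (x := t)
  rw [h]
  have h1 := round_le (L⁻¹ * t) 0
  have hL0 : 0 < L := hL.out
  rw [Int.cast_zero, sub_zero] at h1
  have h2 : |t - round (L⁻¹ * t) * L| = L * |L⁻¹ * t - round (L⁻¹ * t)| := by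
    rw [← abs_of_pos hL0, ← abs_mul, abs_of_pos hL0]
    congr 1
    field_simp
  rw [h2]
  calc L * |L⁻¹ * t - round (L⁻¹ * t)| ≤ L * |L⁻¹ * t| := mul_le_mul_of_nonneg_left h1 hL0.le
    _ = |t| := by
      rw [abs_mul, abs_of_pos (inv_pos.2 hL0)]
      field_simp

end circle

section torus

variable {n : ℕ} {L : ℝ}

lemma blk_eq (b : ℝ) (i : Fin n → ℕ) :
    blk n L b i = Set.pi Set.univ fun c => ar L ((i c : ℝ) * b) (((i c : ℝ) + 1) * b) := by
  ext x
  simp only [blk, ar, Set.mem_univ_pi]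
  rfl

/-- the interior of a block -/
def gb (n : ℕ) (L b r : ℝ) (i : Fin n → ℕ) : Set (Tor n L) :=
  Set.pi Set.univ fun c => ar L ((i c : ℝ) * b + r) (((i c : ℝ) + 1) * b - r)

variable [hL : Fact (0 < L)]

lemma blk_meas {b : ℝ} (hbL : b ≤ L) (i : Fin n → ℕ) : MeasurableSet (blk n L b i) := by
  rw [blk_eq]
  refine MeasurableSet.univ_pi fun c => ar_meas ?_
  linarith

lemma gb_meas {b r : ℝ} (hr : 0 < r) (hbL : b ≤ L) (i : Fin n → ℕ) :
    MeasurableSet (gb n L b r i) := by
  refine MeasurableSet.univ_pi fun c => ar_meas ?_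
  linarith

lemma blk_vol {b : ℝ} (hb : 0 < b) (hbL : b ≤ L) (i : Fin n → ℕ) :
    volume (blk n L b i) = ENNReal.ofReal (b ^ n) := by
  rw [blk_eq, volume_pi_pi]
  have h1 : ∀ c, volume (ar L ((i c : ℝ) * b) (((i c : ℝ) + 1) * b)) = ENNReal.ofReal b := by
    intro c
    rw [ar_vol (by linarith)]
    congr 1
    ring
  simp only [h1]
  rw [Finset.prod_const, Finset.card_univ, Fintype.card_fin, ENNReal.ofReal_pow hb.le]

lemma gb_vol {b r : ℝ} (hr : 0 < r) (hrb : 2 * r ≤ b) (hbL : b ≤ L) (i : Fin n → ℕ) :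
    volume (gb n L b r i) = ENNReal.ofReal ((b - 2 * r) ^ n) := by
  unfold gb
  rw [volume_pi_pi]
  have h1 : ∀ c, volume (ar L ((i c : ℝ) * b + r) (((i c : ℝ) + 1) * b - r)) =
      ENNReal.ofReal (b - 2 * r) := by
    intro c
    rw [ar_vol (by linarith)]
    congr 1
    ring
  simp only [h1]
  rw [Finset.prod_const, Finset.card_univ, Fintype.card_fin, ENNReal.ofReal_pow (by linarith)]

lemma gb_sub {b r : ℝ} (hr : 0 < r) (i : Fin n → ℕ) : gb n L b r i ⊆ blk n L b i := by
  intro x hx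
  rw [blk_eq]
  intro c hc
  obtain ⟨t, h1, h2, h3⟩ := hx c hc
  exact ⟨t, by linarith, by linarith, h3⟩

lemma bern {b r : ℝ} (n : ℕ) (hb : 0 < b) (hr : 0 < r) (hrb : 2 * r ≤ b) :
    b ^ n - (b - 2 * r) ^ n ≤ 2 * n * r / b * b ^ n := by
  have h1 := one_add_mul_le_pow (a := -(2 * r / b)) (by
    have : 2 * r / b ≤ 1 := (div_le_one hb).2 hrb
    linarith) n
  have h2 : b * (1 + -(2 * r / b)) = b - 2 * r := by
    field_simp
    ring
  rw [← h2, mul_pow]
  have h3 := mul_le_mul_of_nonneg_left h1 (pow_pos hb n).le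
  have h4 : b ^ n * (1 + (n : ℝ) * -(2 * r / b)) = b ^ n - 2 * n * r / b * b ^ n := by
    ring
  linarith

lemma bd_vol {b r : ℝ} (hb : 0 < b) (hr : 0 < r) (hrb : 2 * r ≤ b) (hbL : b ≤ L)
    (i : Fin n → ℕ) :
    volume (blk n L b i \ gb n L b r i) ≤ ENNReal.ofReal (2 * n * r / b * b ^ n) := by
  rw [measure_sdiff (gb_sub hr i) (gb_meas hr hbL i).nullMeasurableSet, blk_vol hb hbL,
    gb_vol hr hrb hbL, ← ENNReal.ofReal_sub]
  · exact ENNReal.ofReal_le_ofReal (bern n hb hr hrb)
  · exact pow_nonneg (by linarith) n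
  · rw [gb_vol hr hrb hbL]
    exact ENNReal.ofReal_ne_top

lemma tc_sub {b r : ℝ} (hr : 0 < r) (i : Fin n → ℕ) (y : Tor n L) (hy : y ∈ gb n L b r i) :
    tc y r ⊆ blk n L b i := by
  obtain ⟨-, -, -, -, -, -, hrep, -⟩ := Pool.Agent.W135.CB.proof_tf n L
  intro x hx
  obtain ⟨z, hz1, hz2⟩ := hrep (x - y)
  rw [blk_eq]
  intro c hc
  obtain ⟨t, h1, h2, h3⟩ := hy c hc
  have h4 : |z c| ≤ r := by
    rw [(hz1 c).1]
    exact hx c
  obtain ⟨h5, h6⟩ := abs_le.1 h4
  refine ⟨t + z c, by linarith, by linarith, ?_⟩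
  have h7 : x c - y c = (z c : AddCircle L) := congrFun hz2 c
  rw [AddCircle.coe_add, ← h7, ← h3]
  abel

lemma tc_vol {r : ℝ} (hr0 : 0 ≤ r) (hr : r < L / 2) (y : Tor n L) :
    volume (tc y r) = ENNReal.ofReal ((2 * r) ^ n) := by
  have h := tr Pool.Agent.W135.CB.proof_tf hr (φ := fun _ => 1) measurable_const y
  simp only [lintegral_const, Measure.restrict_apply_univ, one_mul] at h
  rw [← h, vol_cube n hr0]

/-- Integrals over cubes, an upper bound. -/
lemma tr_le {r : ℝ} {φ : Tor n L → ℝ≥0∞} (hφ : Measurable φ) (y : Tor n L) :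
    ∫⁻ x in tc y r, φ x ≤ ∫⁻ z in cube n r, φ (y + pr L z) := by
  obtain ⟨-, hpr, -, hbox, htr, hnorm, -, -⟩ := Pool.Agent.W135.CB.proof_tf n L
  rw [← lintegral_indicator (meas_tc y r)]
  have hm : Measurable ((tc y r).indicator φ) := hφ.indicator (meas_tc y r)
  rw [← htr _ hm y, hbox (fun x => (tc y r).indicator φ (x + y))
    (hm.comp (measurable_id.add_const y))]
  set Bx : Set (Fin n → ℝ) := {z : Fin n → ℝ | ∀ c, -(L / 2) < z c ∧ z c ≤ L / 2} with hBx
  have hBm : MeasurableSet Bx := by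
    have : Bx = ⋂ c, {z : Fin n → ℝ | -(L / 2) < z c ∧ z c ≤ L / 2} := by
      ext z; simp [hBx]
    rw [this]
    refine MeasurableSet.iInter fun c => ?_
    exact (measurableSet_lt measurable_const (measurable_pi_apply c)).inter
      (measurableSet_le (measurable_pi_apply c) measurable_const)
  rw [← lintegral_indicator (meas_cube n r), ← lintegral_indicator hBm]
  refine lintegral_mono fun z => ?_
  by_cases hzB : z ∈ Bx
  · rw [Set.indicator_of_mem hzB]
    by_cases hzt : pr L z + y ∈ tc y r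
    · have hz : z ∈ cube n r := by
        intro c
        have h1 : (pr L z + y) c - y c = pr L z c := by
          rw [Pi.add_apply]; abel
        have h2 := hzt c
        rw [h1, hnorm z (fun c => abs_le.2 ⟨(hzB c).1.le, (hzB c).2⟩) c] at h2
        exact h2
      rw [Set.indicator_of_mem hzt, Set.indicator_of_mem hz, add_comm]
    · rw [Set.indicator_of_notMem hzt]
      exact zero_le
  · rw [Set.indicator_of_notMem hzB]
    exact zero_le

/-- Integrals over cubes, complex functions. -/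
lemma int_tc {r : ℝ} (hr : r < L / 2) {g : Tor n L → ℂ} (hg : Measurable g) (y : Tor n L) :
    ∫ x in tc y r, g x = ∫ z in cube n r, g (y + pr L z) := by
  obtain ⟨-, hpr, -, -, -, hnorm, -, -⟩ := Pool.Agent.W135.CB.proof_tf n L
  rw [← integral_indicator (meas_tc y r)]
  have hm : Measurable ((tc y r).indicator g) := hg.indicator (meas_tc y r)
  have h1 : ∫ x : Tor n L, (tc y r).indicator g x = ∫ x : Tor n L, (tc y r).indicator g (y + x) :=
    (integral_add_left_eq_self (μ := (volume : Measure (Tor n L))) _ y).symm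
  have hmp := Pool.Agent.W135.CB.mp_pr n L
  set Bx : Set (Fin n → ℝ) := {z : Fin n → ℝ | ∀ c, -(L / 2) < z c ∧ z c ≤ L / 2} with hBx
  have hBm : MeasurableSet Bx := by
    have : Bx = ⋂ c, {z : Fin n → ℝ | -(L / 2) < z c ∧ z c ≤ L / 2} := by
      ext z; simp [hBx]
    rw [this]
    refine MeasurableSet.iInter fun c => ?_
    exact (measurableSet_lt measurable_const (measurable_pi_apply c)).inter
      (measurableSet_le (measurable_pi_apply c) measurable_const)
  have hm2 : Measurable fun x : Tor n L => (tc y r).indicator g (y + x) :=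
    hm.comp (measurable_id.const_add y)
  rw [h1, ← hmp.map_eq, integral_map hmp.measurable.aemeasurable hm2.aestronglyMeasurable,
    ← integral_indicator hBm, ← integral_indicator (meas_cube n r)]
  refine integral_congr_ae (Filter.Eventually.of_forall fun z => ?_)
  by_cases hz : z ∈ cube n r
  · have hzB : z ∈ Bx := by
      intro c
      have := abs_le.1 (hz c)
      exact ⟨by linarith [this.1], by linarith [this.2]⟩
    have hzt : y + pr L z ∈ tc y r := by
      intro c
      have h1 : (y + pr L z) c - y c = pr L z c := by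
        rw [Pi.add_apply]; abel
      rw [h1, hnorm z (fun c => (hz c).trans hr.le) c]
      exact hz c
    rw [Set.indicator_of_mem hz, Set.indicator_of_mem hzB, Set.indicator_of_mem hzt]
  · rw [Set.indicator_of_notMem hz]
    by_cases hzB : z ∈ Bx
    · rw [Set.indicator_of_mem hzB, Set.indicator_of_notMem]
      intro hzt
      apply hz
      intro c
      have h1 : (y + pr L z) c - y c = pr L z c := by
        rw [Pi.add_apply]; abel
      have h2 := hzt c
      rw [h1, hnorm z (fun c => abs_le.2 ⟨(hzB c).1.le, (hzB c).2⟩) c] at h2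
      exact h2
    · rw [Set.indicator_of_notMem hzB]

/-- close points -/
def nr (r : ℝ) (y y' : Tor n L) : Prop := y' ∈ tc y (2 * r)

lemma tc_prod_meas (r : ℝ) : MeasurableSet {p : Tor n L × Tor n L | p.2 ∈ tc p.1 r} := by
  have : {p : Tor n L × Tor n L | p.2 ∈ tc p.1 r} =
      ⋂ c, {p : Tor n L × Tor n L | ‖p.2 c - p.1 c‖ ≤ r} := by
    ext x; simp [tc]
  rw [this]
  refine MeasurableSet.iInter fun c => ?_
  refine measurableSet_le ?_ measurable_const
  exact (((measurable_pi_apply c).comp measurable_snd).sub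
    ((measurable_pi_apply c).comp measurable_fst)).norm

lemma nr_refl {r : ℝ} (hr : 0 < r) (y : Tor n L) : nr r y y := by
  intro c
  rw [sub_self, norm_zero]
  linarith

lemma nr_symm {r : ℝ} (y y' : Tor n L) (h : nr r y y') : nr r y' y := by
  intro c
  rw [← neg_sub, norm_neg]
  exact h c

lemma nr_meet {r : ℝ} {y y' : Tor n L} {z z' : Fin n → ℝ} (hz : z ∈ cube n r)
    (hz' : z' ∈ cube n r) (h : y + pr L z = y' + pr L z') : nr r y y' := by
  intro c
  have h1 : y c + (z c : AddCircle L) = y' c + (z' c : AddCircle L) := congrFun h c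
  have h2 : y' c - y c = (z c : AddCircle L) - (z' c : AddCircle L) := by
    rw [sub_eq_sub_iff_add_eq_add, ← h1, add_comm]
  rw [h2]
  refine (norm_sub_le _ _).trans ?_
  have h3 := (norm_co_le (L := L) (z c)).trans (hz c)
  have h4 := (norm_co_le (L := L) (z' c)).trans (hz' c)
  linarith

lemma pr_mem_tc {r : ℝ} {y : Tor n L} {z : Fin n → ℝ} (hz : z ∈ cube n r) :
    y + pr L z ∈ tc y r := by
  intro c
  have h1 : (y + pr L z) c - y c = (z c : AddCircle L) := by
    rw [Pi.add_apply, add_sub_cancel_left]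
    rfl
  rw [h1]
  exact (norm_co_le (L := L) (z c)).trans (hz c)

/-- the total depletion of the blocks -/
lemma dp_tot (hPO2 : S_PO2) {b CP μ : ℝ} {q : ℕ} (hBLK : S_BLK) (hq : 1 ≤ q) (hLb : L = q * b)
    (hb : 1 ≤ b) (hCP : 0 ≤ CP) (hPO : PO n L 2 CP (ENNReal.ofReal μ) (fun _ => 0))
    {F : Multiset (Tor n L) → ℂ} (hF : EB F) :
    ∑ i : Fin n → Fin q, dp volume (blk n L b (fun c => (i c : ℕ))) F ≤
      ENNReal.ofReal (CP * b ^ 2) * ken (ENNReal.ofReal μ) (fun _ => 0) F := by
  have hb0 : 0 < b := by linarith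
  have hq' : (1 : ℝ) ≤ q := by exact_mod_cast hq
  have hbL : b ≤ L := by rw [hLb]; nlinarith
  obtain ⟨-, hex, hz, -, -⟩ := hBLK n L b q hq hLb
  have hpr : Measurable (pr (n := n) L) := (Pool.Agent.W135.CB.proof_tf n L).2.1
  have hbn : 0 < b ^ n := pow_pos hb0 n
  set h : Tor n L → ℝ≥0∞ := fun x => ∫⁻ z in cube n b, dE volume F (x + pr L z) x with hh
  have h1 : ∀ i : Fin n → Fin q, dp volume (blk n L b (fun c => (i c : ℕ))) F ≤
      (ENNReal.ofReal (b ^ n))⁻¹ * ∫⁻ x in blk n L b (fun c => (i c : ℕ)), h x := by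
    intro i
    have hv := blk_vol (n := n) (L := L) hb0 hbL (fun c => (i c : ℕ))
    have hv0 : volume (blk n L b (fun c => (i c : ℕ))) ≠ 0 := by
      rw [hv]
      exact (ENNReal.ofReal_pos.2 hbn).ne'
    refine (dp_le volume (blk_meas hbL _) hv0 hF).trans ?_
    rw [hv]
    refine mul_le_mul' le_rfl (setLIntegral_mono' (blk_meas hbL _) fun x hx => ?_)
    have hm : Measurable fun y : Tor n L => dE volume F y x :=
      dE_meas volume hF (fun y => y) (fun _ => x) measurable_id measurable_const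
    refine le_trans (lintegral_mono_set (fun y hy => ?_)) (tr_le (r := b) hm x)
    obtain ⟨z, hz1, hz2⟩ := hz _ x y hx hy
    rw [hz2]
    exact pr_mem_tc fun c => (hz1 c).le
  have h2 : ∑ i : Fin n → Fin q, ∫⁻ x in blk n L b (fun c => (i c : ℕ)), h x ≤ ∫⁻ x, h x := by
    classical
    have e1 : ∀ i : Fin n → Fin q, ∫⁻ x in blk n L b (fun c => (i c : ℕ)), h x =
        ∫⁻ x, (blk n L b (fun c => (i c : ℕ))).indicator h x := fun i =>
      (lintegral_indicator (blk_meas hbL _) _).symm
    simp only [e1]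
    refine (sum_lint_le _ _ _).trans (lintegral_mono fun x => ?_)
    obtain ⟨i0, hi0, hu⟩ := hex x
    rw [Finset.sum_eq_single i0]
    · exact Set.indicator_le_self _ _ _
    · intro i _ hi
      rw [Set.indicator_of_notMem]
      intro h3
      exact hi (hu i h3)
    · intro h3
      exact absurd (Finset.mem_univ _) h3
  have hm5 : Measurable fun p : Tor n L × (Fin n → ℝ) => p.1 + pr L p.2 :=
    measurable_fst.add (hpr.comp measurable_snd)
  have hme : Measurable (fun p : Tor n L × (Fin n → ℝ) => dE volume F (p.1 + pr L p.2) p.1) :=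
    dE_meas volume hF (fun p : Tor n L × (Fin n → ℝ) => p.1 + pr L p.2) (fun p => p.1) hm5
      measurable_fst
  have h3 : ∫⁻ x, h x ≤ ENNReal.ofReal (CP * b ^ ((n : ℝ) + 2)) *
      ken (ENNReal.ofReal μ) (fun _ => 0) F := by
    simp only [hh]
    rw [lintegral_lintegral_swap]
    · exact hPO2 n L 2 CP (ENNReal.ofReal μ) (fun _ => 0) measurable_const hCP hPO F hF b hb hbL
    · exact hme.aemeasurable
  calc ∑ i : Fin n → Fin q, dp volume (blk n L b (fun c => (i c : ℕ))) F ≤
        ∑ i : Fin n → Fin q, (ENNReal.ofReal (b ^ n))⁻¹ *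
          ∫⁻ x in blk n L b (fun c => (i c : ℕ)), h x := Finset.sum_le_sum fun i _ => h1 i
    _ = (ENNReal.ofReal (b ^ n))⁻¹ *
          ∑ i : Fin n → Fin q, ∫⁻ x in blk n L b (fun c => (i c : ℕ)), h x := by
        rw [Finset.mul_sum]
    _ ≤ (ENNReal.ofReal (b ^ n))⁻¹ * (ENNReal.ofReal (CP * b ^ ((n : ℝ) + 2)) *
          ken (ENNReal.ofReal μ) (fun _ => 0) F) := mul_le_mul' le_rfl (h2.trans h3)
    _ = _ := by
        rw [← mul_assoc, ← ENNReal.ofReal_inv_of_pos hbn, ← ENNReal.ofReal_mul (by positivity)]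
        congr 2
        rw [Real.rpow_add hb0, Real.rpow_natCast, Real.rpow_ofNat]
        field_simp

end torus

end Pool.Agent.W806.CC
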